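import Pool.Agent.Helper21.SN.Purity

/-!
MP_e2c9e7_nt: Q1 is equivalent to the purity of the cycles homologous to zero, for varieties with a
Lefschetz-Künneth decomposition (for example all abelian varieties); injectivity and surjectivity separately.
-/

set_option autoImplicit false

namespace Pool.Agent.Results.MP_e2c9e7_nt.LefschetzPurity

open Pool.Agent.Helper21.Purity

universe u

/-- Let `gr i` (the cycles of codimension `i` homologous to zero on a variety of dimension `n`) be a graded rational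
vector space with an operator `L` of degree one and a Lefschetz-Künneth decomposition `π j` (`0 ≤ j ≤ 2 n`). Then
(1) `L^(n+1-2i) : gr i → gr (n+1-i)` is injective for all `i` with `1 ≤ i`, `2 i ≤ n + 1`, if and only if
`π j gr i = 0` for all `i` and `j ≥ 2 i`;
(2) these maps are surjective if and only if `π j gr i = 0` for all `i` and `j ≤ 2 i - 2`;
(3) they are bijective (Q1) if and only if `π (2 i - 1)` is the identity on `gr i` for all `i`. -/
theorem result {V : Type u} [AddCommGroup V] [Module ℚ V] {gr : ℤ → Submodule ℚ V} {L : V →ₗ[ℚ] V}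
    {π : ℤ → V →ₗ[ℚ] V} {n : ℕ} (h : LefschetzKunneth gr L π n) :
    ((∀ i : ℕ, 1 ≤ i → 2 * i ≤ n + 1 → Set.InjOn (fun x => (L ^ (n + 1 - 2 * i)) x) (gr i)) ↔
      ∀ i j : ℤ, 2 * i ≤ j → ∀ x ∈ gr i, π j x = 0) ∧
    ((∀ i : ℕ, 1 ≤ i → 2 * i ≤ n + 1 →
        Set.SurjOn (fun x => (L ^ (n + 1 - 2 * i)) x) (gr i) (gr (n + 1 - i))) ↔
      ∀ i j : ℤ, j ≤ 2 * i - 2 → ∀ x ∈ gr i, π j x = 0) ∧
    ((∀ i : ℕ, 1 ≤ i → 2 * i ≤ n + 1 →
        Set.BijOn (fun x => (L ^ (n + 1 - 2 * i)) x) (gr i) (gr (n + 1 - i))) ↔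
      ∀ i : ℤ, ∀ x ∈ gr i, π (2 * i - 1) x = x) :=
  ⟨h.inj_iff, h.surj_iff, h.lefschetz_iff⟩

end Pool.Agent.Results.MP_e2c9e7_nt.LefschetzPurity
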